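import Mathlib

set_option autoImplicit false
set_option maxRecDepth 20000
set_option linter.constructorNameAsVariable false

universe u

namespace Pool.Agent.Results.MP_5d3ebc_al.SLPFails

/-! ### Definitions used in the statement -/

/-- `Δ` is an abstract simplicial complex whose vertices are exactly the elements of `Fin n`. -/
def IsComplex {n : ℕ} (Δ : Finset (Finset (Fin n))) : Prop :=
  (∀ s ∈ Δ, ∀ t : Finset (Fin n), t ⊆ s → t ∈ Δ) ∧ ∀ v : Fin n, {v} ∈ Δ

/-- The geometric realization of `Δ`: the points of the standard simplex whose support is a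
face of `Δ`. -/
def realization {n : ℕ} (Δ : Finset (Finset (Fin n))) : Set (Fin n → ℝ) :=
  {x | (∀ i, 0 ≤ x i) ∧ ∑ i, x i = 1 ∧ ∃ s ∈ Δ, ∀ i, i ∈ s ↔ x i ≠ 0}

/-- `Δ` is a simplicial `(d-1)`-sphere. -/
def IsSphere (d : ℕ) {n : ℕ} (Δ : Finset (Finset (Fin n))) : Prop :=
  IsComplex Δ ∧
    Nonempty (realization Δ ≃ₜ Metric.sphere (0 : EuclideanSpace ℝ (Fin d)) 1)

/-- `c` is a proper `d`-coloring of the graph of `Δ`. -/
def IsProperColoring {d n : ℕ} (Δ : Finset (Finset (Fin n))) (c : Fin n → Fin d) : Prop :=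
  ∀ a b : Fin n, a ≠ b → {a, b} ∈ Δ → c a ≠ c b

/-- The Stanley-Reisner ideal of `Δ`. -/
noncomputable def srIdeal (K : Type u) [Field K] {n : ℕ} (Δ : Finset (Finset (Fin n))) :
    Ideal (MvPolynomial (Fin n) K) :=
  Ideal.span {m | ∃ s : Finset (Fin n), s ∉ Δ ∧ m = ∏ i ∈ s, MvPolynomial.X i}

/-- The colored parameter `θ_j`: the sum of the variables of color `j`. -/
noncomputable def theta (K : Type u) [Field K] {d n : ℕ} (c : Fin n → Fin d) (j : Fin d) :
    MvPolynomial (Fin n) K :=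
  ∑ v with c v = j, MvPolynomial.X v

/-- The ideal `I_Δ + (θ_1, …, θ_d)`. -/
noncomputable def J (K : Type u) [Field K] {d n : ℕ} (Δ : Finset (Finset (Fin n)))
    (c : Fin n → Fin d) : Ideal (MvPolynomial (Fin n) K) :=
  srIdeal K Δ ⊔ Ideal.span (Set.range (theta K c))

/-- The algebra `S / (I_Δ + (Θ))` with `Θ` the colored parameter system. -/
abbrev A (K : Type u) [Field K] {d n : ℕ} (Δ : Finset (Finset (Fin n))) (c : Fin n → Fin d) :
    Type u :=
  MvPolynomial (Fin n) K ⧸ J K Δ c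

/-- The degree `i` component of `S / (I_Δ + (Θ))`. -/
noncomputable def deg (K : Type u) [Field K] {d n : ℕ} (Δ : Finset (Finset (Fin n)))
    (c : Fin n → Fin d) (i : ℕ) : Submodule K (A K Δ c) :=
  (MvPolynomial.homogeneousSubmodule (Fin n) K i).map
    (Ideal.Quotient.mkₐ K (J K Δ c)).toLinearMap

/-- The strong Lefschetz property of `S / (I_Δ + (Θ))`: for some linear form `l`, every
multiplication map by `l ^ k` from degree `i` to degree `i + k` is injective or surjective. -/
def HasSLP (K : Type u) [Field K] {d n : ℕ} (Δ : Finset (Finset (Fin n)))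
    (c : Fin n → Fin d) : Prop :=
  ∃ l ∈ deg K Δ c 1, ∀ i k : ℕ, 1 ≤ k →
    (∀ a ∈ deg K Δ c i, l ^ k * a = 0 → a = 0) ∨
      (∀ b ∈ deg K Δ c (i + k), ∃ a ∈ deg K Δ c i, l ^ k * a = b)

/-! ### Moves between complexes -/

section Flips

/-- Union of the closed simplices spanned by the bitmasks in `L`. -/
def R (n : ℕ) (L : List ℕ) : Set (Fin n → ℝ) :=
  {x | (∀ i, 0 ≤ x i) ∧ ∑ i, x i = 1 ∧ ∃ F ∈ L, ∀ i : Fin n, x i ≠ 0 → F.testBit i = true}

section T
variable {n : ℕ}

/-- Push mass from `A` to `B`. -/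
noncomputable def T (A B : Finset (Fin n)) (hA : A.Nonempty) (x : Fin n → ℝ) (i : Fin n) : ℝ :=
  x i - (if i ∈ A then A.inf' hA x else 0) +
    (if i ∈ B then A.inf' hA x * ((A.card : ℝ) / (B.card : ℝ)) else 0)

lemma T_def (A B : Finset (Fin n)) (hA : A.Nonempty) (x : Fin n → ℝ) (i : Fin n) :
    T A B hA x i = x i - (if i ∈ A then A.inf' hA x else 0) +
      (if i ∈ B then A.inf' hA x * ((A.card : ℝ) / (B.card : ℝ)) else 0) := rfl

lemma T_continuous (A B : Finset (Fin n)) (hA : A.Nonempty) : Continuous (T A B hA) := by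
  have hm : Continuous (fun x : Fin n → ℝ => A.inf' hA x) := by
    apply Continuous.finset_inf'_apply
    intro i _
    exact continuous_apply i
  apply continuous_pi
  intro i
  unfold T
  apply Continuous.add
  · apply Continuous.sub (continuous_apply i)
    by_cases h : i ∈ A
    · simp only [h, if_true]; exact hm
    · simp only [h, if_false]; exact continuous_const
  · by_cases h : i ∈ B
    · simp only [h, if_true]; exact hm.mul continuous_const
    · simp only [h, if_false]; exact continuous_const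

lemma T_eq_self (A B : Finset (Fin n)) (hA : A.Nonempty) (x : Fin n → ℝ) (hx : ∀ i, 0 ≤ x i)
    (h : ∃ a ∈ A, x a = 0) : T A B hA x = x := by
  obtain ⟨a, ha, h0⟩ := h
  have hm : A.inf' hA x = 0 := by
    apply le_antisymm
    · have := Finset.inf'_le x ha; rw [h0] at this; exact this
    · exact Finset.le_inf' hA x (fun i _ => hx i)
  funext i
  simp [T, hm]

lemma T_spec (A B : Finset (Fin n)) (hA : A.Nonempty) (hB : B.Nonempty) (hd : Disjoint A B)
    (x : Fin n → ℝ) (hx : ∀ i, 0 ≤ x i) (h1 : ∑ i, x i = 1) (h : ∃ b ∈ B, x b = 0) :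
    (∀ i, 0 ≤ T A B hA x i) ∧ ∑ i, T A B hA x i = 1 ∧ (∃ a ∈ A, T A B hA x a = 0) ∧
      T B A hB (T A B hA x) = x := by
  have hm0 : 0 ≤ A.inf' hA x := Finset.le_inf' hA x (fun i _ => hx i)
  have hAc : (0 : ℝ) < (A.card : ℝ) := by exact_mod_cast hA.card_pos
  have hBc : (0 : ℝ) < (B.card : ℝ) := by exact_mod_cast hB.card_pos
  have hq : 0 ≤ A.inf' hA x * ((A.card : ℝ) / (B.card : ℝ)) :=
    mul_nonneg hm0 (div_nonneg hAc.le hBc.le)
  have hAB : ∀ i, i ∈ A → i ∉ B := fun i hi hi' => Finset.disjoint_left.mp hd hi hi'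
  have vA : ∀ i ∈ A, T A B hA x i = x i - A.inf' hA x := by
    intro i hi
    simp [T, hi, hAB i hi]
  have vB : ∀ i ∈ B, T A B hA x i = x i + A.inf' hA x * ((A.card : ℝ) / (B.card : ℝ)) := by
    intro i hi
    have : i ∉ A := fun h' => hAB i h' hi
    simp [T, hi, this]
  have vO : ∀ i, i ∉ A → i ∉ B → T A B hA x i = x i := by
    intro i h1 h2
    simp [T, h1, h2]
  refine ⟨?_, ?_, ?_, ?_⟩
  · intro i
    by_cases hi : i ∈ A
    · rw [vA i hi]
      have := Finset.inf'_le x hi
      linarith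
    · by_cases hi' : i ∈ B
      · rw [vB i hi']; have := hx i; linarith
      · rw [vO i hi hi']; exact hx i
  · have e1 : ∑ i, (if i ∈ A then A.inf' hA x else 0) = A.card * A.inf' hA x := by
      rw [Finset.sum_ite_mem, Finset.univ_inter, Finset.sum_const, nsmul_eq_mul]
    have e2 : ∑ i, (if i ∈ B then A.inf' hA x * ((A.card : ℝ) / (B.card : ℝ)) else 0) =
        B.card * (A.inf' hA x * ((A.card : ℝ) / (B.card : ℝ))) := by
      rw [Finset.sum_ite_mem, Finset.univ_inter, Finset.sum_const, nsmul_eq_mul]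
    unfold T
    rw [Finset.sum_add_distrib, Finset.sum_sub_distrib, e1, e2, h1]
    field_simp
    ring
  · obtain ⟨a, ha, hae⟩ := Finset.exists_mem_eq_inf' hA x
    refine ⟨a, ha, ?_⟩
    rw [vA a ha, hae, sub_self]
  · have hmB : B.inf' hB (T A B hA x) = A.inf' hA x * ((A.card : ℝ) / (B.card : ℝ)) := by
      obtain ⟨b, hb, hb0⟩ := h
      apply le_antisymm
      · have := Finset.inf'_le (T A B hA x) hb
        rw [vB b hb, hb0, zero_add] at this
        exact this
      · apply Finset.le_inf'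
        intro i hi
        rw [vB i hi]
        have := hx i
        linarith
    funext i
    by_cases hi : i ∈ A
    · have hi' := hAB i hi
      have : T B A hB (T A B hA x) i = T A B hA x i +
        B.inf' hB (T A B hA x) * ((B.card : ℝ) / (A.card : ℝ)) := by
        rw [T_def B A hB, if_neg hi', if_pos hi, sub_zero]
      rw [this, hmB, vA i hi]
      field_simp
      ring
    · by_cases hi' : i ∈ B
      · have : T B A hB (T A B hA x) i = T A B hA x i - B.inf' hB (T A B hA x) := by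
          rw [T_def B A hB, if_pos hi', if_neg hi, add_zero]
        rw [this, hmB, vB i hi']
        ring
      · have : T B A hB (T A B hA x) i = T A B hA x i := by
          rw [T_def B A hB, if_neg hi', if_neg hi, add_zero, sub_zero]
        rw [this, vO i hi hi']

end T

/-- The vertex set of a bitmask. -/
def vs (n : ℕ) (m : ℕ) : Finset (Fin n) := Finset.univ.filter (fun i => m.testBit i = true)

lemma mem_vs (n m : ℕ) (i : Fin n) : i ∈ vs n m ↔ m.testBit i = true := by
  simp [vs]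

/-- The list of bits of a mask below `n`. -/
def bits (n m : ℕ) : List ℕ := (List.range n).filter (fun i => m.testBit i)

/-- One half of the check that `L'` comes from `L` by trading `A` for `B`. -/
def half (n : ℕ) (L L' : List ℕ) (A B : ℕ) : Bool :=
  (bits n A).all (fun a => !(B.testBit a)) && !(bits n A).isEmpty &&
  L.all (fun F => (bits n B).any (fun b => !(F.testBit b)) &&
    (if F &&& A = A then (bits n A).all (fun a => L'.elem ((F ||| B) ^^^ (1 <<< a)))
      else ((bits n A).any (fun a => !(F.testBit a))) && L'.elem F))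

lemma mem_bits (n m : ℕ) (a : ℕ) : a ∈ bits n m ↔ a < n ∧ m.testBit a = true := by
  simp [bits]

lemma half_spec (n : ℕ) (L L' : List ℕ) (A B : ℕ) (h : half n L L' A B = true) :
    (vs n A).Nonempty ∧ Disjoint (vs n A) (vs n B) ∧
    ∀ x ∈ R n L, (∃ b ∈ vs n B, x b = 0) ∧
      ∀ hA : (vs n A).Nonempty, T (vs n A) (vs n B) hA x ∈ R n L' := by
  simp only [half, Bool.and_eq_true, List.all_eq_true, Bool.not_eq_true', List.isEmpty_eq_false_iff] at h
  obtain ⟨⟨hdis, hne⟩, hL⟩ := h
  have hAn : (vs n A).Nonempty := by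
    obtain ⟨a, ha⟩ := List.exists_mem_of_ne_nil _ hne
    rw [mem_bits] at ha
    exact ⟨⟨a, ha.1⟩, by rw [mem_vs]; exact ha.2⟩
  have hd : Disjoint (vs n A) (vs n B) := by
    rw [Finset.disjoint_left]
    intro i hi hi'
    rw [mem_vs] at hi hi'
    have := hdis i.1 (by rw [mem_bits]; exact ⟨i.2, hi⟩)
    rw [this] at hi'
    exact absurd hi' (by simp)
  refine ⟨hAn, hd, ?_⟩
  rintro x ⟨hx0, hx1, F, hF, hFx⟩
  have hLF := hL F hF
  simp only [List.any_eq_true, Bool.not_eq_true'] at hLF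
  obtain ⟨⟨b, hb, hbF⟩, h2⟩ := hLF
  rw [mem_bits] at hb
  have hxb : ∃ b ∈ vs n B, x b = 0 := by
    refine ⟨⟨b, hb.1⟩, by rw [mem_vs]; exact hb.2, ?_⟩
    by_contra hne'
    have := hFx ⟨b, hb.1⟩ hne'
    simp only at this
    rw [hbF] at this
    exact absurd this (by simp)
  refine ⟨hxb, ?_⟩
  intro hA
  have hBn : (vs n B).Nonempty := ⟨⟨b, hb.1⟩, by rw [mem_vs]; exact hb.2⟩
  obtain ⟨s1, s2, s3, s4⟩ := T_spec (vs n A) (vs n B) hA hBn hd x hx0 hx1 hxb
  by_cases hFA : F &&& A = A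
  · rw [if_pos hFA] at h2
    simp only [List.all_eq_true, List.elem_eq_mem, decide_eq_true_eq] at h2
    obtain ⟨a, ha, ha0⟩ := s3
    rw [mem_vs] at ha
    refine ⟨s1, s2, (F ||| B) ^^^ (1 <<< a.1), h2 a.1 (by rw [mem_bits]; exact ⟨a.2, ha⟩), ?_⟩
    intro i hi
    have hia : a.1 ≠ i.1 := by
      intro h'
      have : a = i := Fin.ext h'
      subst this
      exact hi ha0
    have h3 : (F ||| B).testBit i.1 = true := by
      rw [Nat.testBit_lor]
      by_cases hiA : i ∈ vs n A
      · rw [mem_vs] at hiA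
        have : (F &&& A).testBit i.1 = true := by rw [hFA]; exact hiA
        rw [Nat.testBit_land] at this
        simp only [Bool.and_eq_true] at this
        simp [this.1]
      · by_cases hiB : i ∈ vs n B
        · rw [mem_vs] at hiB; simp [hiB]
        · have : T (vs n A) (vs n B) hA x i = x i := by simp [T, hiA, hiB]
          rw [this] at hi
          have := hFx i hi
          simp [this]
    rw [Nat.testBit_xor, h3, Nat.shiftLeft_eq, one_mul, Nat.testBit_two_pow]
    simp [hia]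
  · rw [if_neg hFA] at h2
    simp only [List.any_eq_true, Bool.not_eq_true', Bool.and_eq_true, List.elem_eq_mem,
      decide_eq_true_eq] at h2
    obtain ⟨⟨a, ha, haF⟩, hFL⟩ := h2
    rw [mem_bits] at ha
    have hxa : ∃ a ∈ vs n A, x a = 0 := by
      refine ⟨⟨a, ha.1⟩, by rw [mem_vs]; exact ha.2, ?_⟩
      by_contra hne'
      have := hFx ⟨a, ha.1⟩ hne'
      simp only at this
      rw [haF] at this
      exact absurd this (by simp)
    rw [T_eq_self _ _ hA x hx0 hxa]
    exact ⟨hx0, hx1, F, hFL, hFx⟩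

lemma flip_homeo (n : ℕ) (L L' : List ℕ) (A B : ℕ) (h : half n L L' A B = true)
    (h' : half n L' L B A = true) : Nonempty (R n L ≃ₜ R n L') := by
  obtain ⟨hA, hd, hT⟩ := half_spec n L L' A B h
  obtain ⟨hB, _, hT'⟩ := half_spec n L' L B A h'
  refine ⟨{
    toFun := fun x => ⟨T (vs n A) (vs n B) hA x.1, (hT x.1 x.2).2 hA⟩
    invFun := fun x => ⟨T (vs n B) (vs n A) hB x.1, (hT' x.1 x.2).2 hB⟩
    left_inv := ?_
    right_inv := ?_
    continuous_toFun := ?_
    continuous_invFun := ?_ }⟩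
  · intro x
    apply Subtype.ext
    exact (T_spec (vs n A) (vs n B) hA hB hd x.1 x.2.1 x.2.2.1 (hT x.1 x.2).1).2.2.2
  · intro x
    apply Subtype.ext
    exact (T_spec (vs n B) (vs n A) hB hA hd.symm x.1 x.2.1 x.2.2.1 (hT' x.1 x.2).1).2.2.2
  · exact Continuous.subtype_mk ((T_continuous _ _ _).comp continuous_subtype_val) _
  · exact Continuous.subtype_mk ((T_continuous _ _ _).comp continuous_subtype_val) _

/-- The complex after a move. -/
def step (n : ℕ) (L : List ℕ) (m : ℕ × ℕ) : List ℕ :=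
  L.filter (fun F => !(F &&& m.1 == m.1)) ++
    (L.filter (fun F => (F &&& m.1 == m.1) && !(F.testBit ((bits n m.2).headD 0)))).flatMap
      (fun F => (bits n m.1).map (fun a => (F ||| m.2) ^^^ (1 <<< a)))

/-- Check a sequence of moves. -/
def checkAll (n : ℕ) : List ℕ → List (ℕ × ℕ) → Bool
  | _, [] => true
  | L, m :: ms => half n L (step n L m) m.1 m.2 && half n (step n L m) L m.2 m.1 &&
      checkAll n (step n L m) ms

/-- Run a sequence of moves. -/
def run (n : ℕ) : List ℕ → List (ℕ × ℕ) → List ℕ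
  | L, [] => L
  | L, m :: ms => run n (step n L m) ms

lemma run_homeo (n : ℕ) (ms : List (ℕ × ℕ)) : ∀ (L : List ℕ), checkAll n L ms = true →
    Nonempty (R n L ≃ₜ R n (run n L ms)) := by
  induction ms with
  | nil => intro L _; exact ⟨Homeomorph.refl _⟩
  | cons m ms ih =>
    intro L h
    simp only [checkAll, Bool.and_eq_true] at h
    obtain ⟨⟨h1, h2⟩, h3⟩ := h
    obtain ⟨f⟩ := flip_homeo n L (step n L m) m.1 m.2 h1 h2
    obtain ⟨g⟩ := ih _ h3
    exact ⟨f.trans g⟩


end Flips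

/-! ### The boundary of a simplex -/

section Base

variable {n d : ℕ}

/-- Boundary of the simplex on the vertices `e 0, …, e d`. -/
def Bd (e : Fin (d + 1) → Fin n) : Set (Fin n → ℝ) :=
  {x | (∀ i, 0 ≤ x i) ∧ ∑ i, x i = 1 ∧ (∀ i, (∀ j, e j ≠ i) → x i = 0) ∧ ∃ j, x (e j) = 0}

/-- Extend by the negative of the sum. -/
noncomputable def hat (y : EuclideanSpace ℝ (Fin d)) : Fin (d + 1) → ℝ :=
  Fin.cons (-∑ j, y j) (fun j => y j)

lemma hat_sum (y : EuclideanSpace ℝ (Fin d)) : ∑ j, hat y j = 0 := by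
  rw [Fin.sum_univ_succ]
  simp [hat]

lemma hat_continuous (j : Fin (d + 1)) :
    Continuous (fun y : EuclideanSpace ℝ (Fin d) => hat y j) := by
  refine Fin.cases ?_ (fun j => ?_) j
  · simp only [hat, Fin.cons_zero]
    fun_prop
  · simp only [hat, Fin.cons_succ]
    fun_prop

/-- The least coordinate of `hat y`. -/
noncomputable def mn (y : EuclideanSpace ℝ (Fin d)) : ℝ :=
  Finset.univ.inf' Finset.univ_nonempty (hat y)

lemma mn_continuous : Continuous (fun y : EuclideanSpace ℝ (Fin d) => mn y) := by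
  unfold mn
  apply Continuous.finset_inf'_apply
  intro j _
  exact hat_continuous j

lemma mn_neg (y : EuclideanSpace ℝ (Fin d)) (hy : y ≠ 0) : mn y < 0 := by
  by_contra hcon
  push Not at hcon
  have h0 : ∀ j, 0 ≤ hat y j := by
    intro j
    exact hcon.trans (Finset.inf'_le (hat y) (Finset.mem_univ j))
  have h1 := (Finset.sum_eq_zero_iff_of_nonneg (fun j _ => h0 j)).mp (hat_sum y)
  apply hy
  ext j
  have := h1 j.succ (Finset.mem_univ _)
  simpa [hat] using this

/-- The inverse map before restriction. -/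
noncomputable def back (e : Fin (d + 1) → Fin n) (y : EuclideanSpace ℝ (Fin d)) (i : Fin n) : ℝ :=
  ∑ j, if e j = i then 1 / ((d : ℝ) + 1) + hat y j / (-((d : ℝ) + 1) * mn y) else 0

lemma back_apply (e : Fin (d + 1) → Fin n) (he : Function.Injective e)
    (y : EuclideanSpace ℝ (Fin d)) (j : Fin (d + 1)) :
    back e y (e j) = 1 / ((d : ℝ) + 1) + hat y j / (-((d : ℝ) + 1) * mn y) := by
  unfold back
  rw [Finset.sum_eq_single j]
  · simp
  · intro b _ hb
    rw [if_neg (fun h => hb (he h))]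
  · intro h; exact absurd (Finset.mem_univ _) h

lemma back_other (e : Fin (d + 1) → Fin n)
    (y : EuclideanSpace ℝ (Fin d)) (i : Fin n) (hi : ∀ j, e j ≠ i) : back e y i = 0 := by
  unfold back
  apply Finset.sum_eq_zero
  intro j _
  rw [if_neg (hi j)]

lemma sum_over (e : Fin (d + 1) → Fin n) (he : Function.Injective e) (x : Fin n → ℝ)
    (hx : ∀ i, (∀ j, e j ≠ i) → x i = 0) : ∑ i, x i = ∑ j, x (e j) := by
  have h1 : ∑ j, x (e j) = ∑ i ∈ Finset.univ.image e, x i :=
    (Finset.sum_image (fun a _ b _ h => he h)).symm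
  rw [h1]
  symm
  apply Finset.sum_subset (Finset.subset_univ _)
  intro i _ hi
  apply hx
  intro j hj
  exact hi (Finset.mem_image.mpr ⟨j, Finset.mem_univ _, hj⟩)

lemma back_mem (e : Fin (d + 1) → Fin n) (he : Function.Injective e)
    (y : EuclideanSpace ℝ (Fin d)) (hy : y ≠ 0) : back e y ∈ Bd e := by
  have hm := mn_neg y hy
  have hd : (0 : ℝ) < (d : ℝ) + 1 := by positivity
  have hden : 0 < -((d : ℝ) + 1) * mn y := by nlinarith
  have hval : ∀ j, 0 ≤ back e y (e j) := by
    intro j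
    rw [back_apply e he]
    have h1 : mn y ≤ hat y j := Finset.inf'_le (hat y) (Finset.mem_univ j)
    rw [div_add_div _ _ hd.ne' hden.ne']
    apply div_nonneg
    · nlinarith
    · positivity
  refine ⟨?_, ?_, ?_, ?_⟩
  · intro i
    by_cases h : ∃ j, e j = i
    · obtain ⟨j, rfl⟩ := h; exact hval j
    · push Not at h; rw [back_other e y i h]
  · rw [sum_over e he _ (fun i hi => back_other e y i hi)]
    simp only [back_apply e he]
    rw [Finset.sum_add_distrib, ← Finset.sum_div (f := hat y), hat_sum, zero_div, add_zero,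
      Finset.sum_const, Finset.card_univ, Fintype.card_fin, nsmul_eq_mul]
    push_cast
    field_simp
  · intro i hi; exact back_other e y i hi
  · obtain ⟨j, _, hj⟩ := Finset.exists_mem_eq_inf' Finset.univ_nonempty (hat y)
    refine ⟨j, ?_⟩
    rw [back_apply e he]
    have : hat y j = mn y := hj.symm
    rw [this]
    have := hm.ne
    field_simp
    ring

/-- The forward map before normalisation. -/
noncomputable def fwd (e : Fin (d + 1) → Fin n) (x : Fin n → ℝ) : EuclideanSpace ℝ (Fin d) :=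
  WithLp.toLp 2 (fun j => x (e j.succ) - 1 / ((d : ℝ) + 1))

lemma fwd_apply (e : Fin (d + 1) → Fin n) (x : Fin n → ℝ) (j : Fin d) :
    fwd e x j = x (e j.succ) - 1 / ((d : ℝ) + 1) := rfl

lemma fwd_continuous (e : Fin (d + 1) → Fin n) : Continuous (fwd e) := by
  unfold fwd
  apply (PiLp.continuous_toLp 2 _).comp
  fun_prop

lemma hat_fwd (e : Fin (d + 1) → Fin n) (he : Function.Injective e) (x : Fin n → ℝ)
    (hx : x ∈ Bd e) (j : Fin (d + 1)) : hat (fwd e x) j = x (e j) - 1 / ((d : ℝ) + 1) := by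
  have hs := hx.2.1
  rw [sum_over e he x hx.2.2.1, Fin.sum_univ_succ] at hs
  refine Fin.cases ?_ (fun j => ?_) j
  · simp only [hat, Fin.cons_zero, fwd_apply, Finset.sum_sub_distrib]
    simp
    have hd : (0 : ℝ) < (d : ℝ) + 1 := by positivity
    field_simp
    nlinarith
  · simp [hat, fwd_apply]

lemma hat_smul (c : ℝ) (y : EuclideanSpace ℝ (Fin d)) (j : Fin (d + 1)) :
    hat (c • y) j = c * hat y j := by
  refine Fin.cases ?_ (fun j => ?_) j
  · simp [hat, Finset.mul_sum]
  · simp [hat]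

lemma mn_smul (c : ℝ) (hc : 0 ≤ c) (y : EuclideanSpace ℝ (Fin d)) : mn (c • y) = c * mn y := by
  apply le_antisymm
  · obtain ⟨j, _, hj⟩ := Finset.exists_mem_eq_inf' Finset.univ_nonempty (hat y)
    have h1 : mn (c • y) ≤ hat (c • y) j := Finset.inf'_le _ (Finset.mem_univ j)
    rw [hat_smul] at h1
    have h2 : mn y = hat y j := hj
    rw [h2]; exact h1
  · apply Finset.le_inf'
    intro j _
    rw [hat_smul]
    have h1 : mn y ≤ hat y j := Finset.inf'_le _ (Finset.mem_univ j)
    exact mul_le_mul_of_nonneg_left h1 hc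

lemma fwd_ne (e : Fin (d + 1) → Fin n) (he : Function.Injective e) (x : Fin n → ℝ)
    (hx : x ∈ Bd e) : fwd e x ≠ 0 := by
  intro h
  obtain ⟨j, hj⟩ := hx.2.2.2
  have h1 := hat_fwd e he x hx j
  rw [h, hj] at h1
  have h2 : hat (0 : EuclideanSpace ℝ (Fin d)) j = 0 := by
    have := hat_smul 0 (0 : EuclideanSpace ℝ (Fin d)) j
    simpa using this
  rw [h2] at h1
  have hd : (0 : ℝ) < 1 / ((d : ℝ) + 1) := by positivity
  linarith

lemma mn_fwd (e : Fin (d + 1) → Fin n) (he : Function.Injective e) (x : Fin n → ℝ)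
    (hx : x ∈ Bd e) : mn (fwd e x) = - (1 / ((d : ℝ) + 1)) := by
  apply le_antisymm
  · obtain ⟨j, hj⟩ := hx.2.2.2
    have h1 : mn (fwd e x) ≤ hat (fwd e x) j := Finset.inf'_le _ (Finset.mem_univ j)
    rw [hat_fwd e he x hx, hj] at h1
    linarith
  · apply Finset.le_inf'
    intro j _
    rw [hat_fwd e he x hx]
    have := hx.1 (e j)
    linarith

/-- The boundary of a simplex is a sphere. -/
lemma bd_homeo (e : Fin (d + 1) → Fin n) (he : Function.Injective e) :
    Nonempty (Bd e ≃ₜ Metric.sphere (0 : EuclideanSpace ℝ (Fin d)) 1) := by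
  have hd : (0 : ℝ) < (d : ℝ) + 1 := by positivity
  have hne : ∀ y : Metric.sphere (0 : EuclideanSpace ℝ (Fin d)) 1, y.1 ≠ 0 := by
    intro y h
    have := y.2
    rw [h] at this
    simp at this
  refine ⟨{
    toFun := fun x => ⟨(‖fwd e x.1‖)⁻¹ • fwd e x.1, by
      rw [mem_sphere_zero_iff_norm, norm_smul, norm_inv, norm_norm]
      exact inv_mul_cancel₀ (norm_ne_zero_iff.mpr (fwd_ne e he x.1 x.2))⟩
    invFun := fun y => ⟨back e y.1, back_mem e he y.1 (hne y)⟩
    left_inv := ?_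
    right_inv := ?_
    continuous_toFun := ?_
    continuous_invFun := ?_ }⟩
  · intro x
    apply Subtype.ext
    funext i
    show back e ((‖fwd e x.1‖)⁻¹ • fwd e x.1) i = x.1 i
    by_cases h : ∃ j, e j = i
    · obtain ⟨j, rfl⟩ := h
      have hN : (‖fwd e x.1‖)⁻¹ ≠ 0 := inv_ne_zero (norm_ne_zero_iff.mpr (fwd_ne e he x.1 x.2))
      rw [back_apply e he, hat_smul, mn_smul _ (inv_nonneg.mpr (norm_nonneg _)),
        hat_fwd e he x.1 x.2, mn_fwd e he x.1 x.2]
      generalize (‖fwd e x.1‖)⁻¹ = c at hN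
      field_simp
      ring
    · push Not at h
      rw [back_other e _ i h, x.2.2.2.1 i h]
  · intro y
    apply Subtype.ext
    show (‖fwd e (back e y.1)‖)⁻¹ • fwd e (back e y.1) = y.1
    have hm := mn_neg y.1 (hne y)
    have hden : 0 < -((d : ℝ) + 1) * mn y.1 := by nlinarith
    have h1 : fwd e (back e y.1) = (-((d : ℝ) + 1) * mn y.1)⁻¹ • y.1 := by
      ext j
      rw [fwd_apply, back_apply e he, PiLp.smul_apply, smul_eq_mul, add_sub_cancel_left]
      simp only [hat, Fin.cons_succ]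
      rw [div_eq_mul_inv, mul_comm]
    have h2 : ‖y.1‖ = 1 := by simp
    rw [h1, norm_smul, h2, mul_one, norm_inv, Real.norm_of_nonneg hden.le, inv_inv, smul_smul,
      mul_inv_cancel₀ hden.ne', one_smul]
  · apply Continuous.subtype_mk
    have h1 : Continuous (fun x : Bd e => fwd e x.1) :=
      (fwd_continuous e).comp continuous_subtype_val
    have h2 : Continuous (fun x : Bd e => (‖fwd e x.1‖)⁻¹) :=
      Continuous.inv₀ h1.norm (fun x => norm_ne_zero_iff.mpr (fwd_ne e he x.1 x.2))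
    exact h2.smul h1
  · apply Continuous.subtype_mk
    apply continuous_pi
    intro i
    unfold back
    apply continuous_finsetSum
    intro j _
    by_cases h : e j = i
    · simp only [h, if_true]
      apply Continuous.add continuous_const
      apply Continuous.div
      · exact (hat_continuous j).comp continuous_subtype_val
      · exact continuous_const.mul (mn_continuous.comp continuous_subtype_val)
      · intro y
        have hm := mn_neg y.1 (hne y)
        have : 0 < -((d : ℝ) + 1) * mn y.1 := by nlinarith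
        exact this.ne'
    · simp only [h, if_false]
      exact continuous_const


end Base

/-! ### The example -/

/-- The facets of the example, as bitmasks. -/
def facets : List ℕ :=
    [4355, 4358, 4361, 4364, 4611, 4614, 4617, 4620, 8457, 8472, 8577, 8592, 8713, 8728, 8833,
    8848, 16688, 16736, 16784, 16832, 16944, 16992, 17040, 17088, 33286, 33292, 33298, 33304,
    33798, 33804, 33810, 33816, 66051, 66066, 66081, 66096, 66563, 66578, 66593, 66608, 131617,
    131680, 131713, 131776, 132129, 132192, 132225, 132288, 263180, 263192, 263204, 263216,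
    264204, 264216, 264228, 264240, 525318, 525348, 525378, 525408, 526342, 526372, 526402,
    526432, 1049603, 1049666, 1049729, 1049792, 1050627, 1050690, 1050753, 1050816, 2097432,
    2097456, 2097480, 2097504, 2099224, 2099248, 2099272, 2099296, 4194572, 4194632, 4194692,
    4194752, 4196364, 4196424, 4196484, 4196544, 8388867, 8388870, 8388993, 8388996, 8390659,
    8390662, 8390785, 8390788]

/-- The facets of the boundary of a 4-simplex. -/
def L0 : List ℕ := [263, 519, 771, 773, 774]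

/-- The vertices of that simplex. -/
def e5 : Fin (4 + 1) → Fin 24 := ![0, 1, 2, 8, 9]

/-- The moves. -/
def moves : List (ℕ × ℕ) :=
    [(7, 1024), (5, 8), (9, 16), (17, 32), (33, 64), (65, 128), (768, 8192), (1536, 65536),
    (1280, 524288), (524544, 2048), (2304, 4194304), (8194, 5), (8196, 9), (13, 4096), (5,
    4098), (8224, 80), (8256, 144), (208, 16384), (80, 16416), (65540, 10), (65544, 18), (26,
    32768), (10, 32772), (65600, 160), (65664, 33), (161, 131072), (160, 131136), (524296, 20),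
    (524304, 36), (52, 262144), (20, 262152), (524416, 65), (524289, 66), (67, 1048576), (65,
    1048704), (4194320, 40), (4194336, 72), (104, 2097152), (40, 2097168), (4194305, 130),
    (4194306, 132), (134, 8388608), (130, 8388609)]

lemma e5_inj : Function.Injective e5 := by decide

lemma L0_one : ∀ F ∈ L0, (∀ i : Fin 24, (∀ j, e5 j ≠ i) → F.testBit i = false) ∧
    ∃ j, F.testBit (e5 j) = false := by decide +kernel

lemma L0_two : ∀ j, ∃ F ∈ L0, ∀ i : Fin 24, F.testBit i = true ∨ (∀ j', e5 j' ≠ i) ∨ i = e5 j := by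
  decide +kernel

lemma R_L0 : R 24 L0 = Bd e5 := by
  ext x
  constructor
  · rintro ⟨h0, h1, F, hF, hx⟩
    obtain ⟨g1, j, hj⟩ := L0_one F hF
    refine ⟨h0, h1, ?_, j, ?_⟩
    · intro i hi
      by_contra hne
      have := hx i hne
      rw [g1 i hi] at this
      exact absurd this (by simp)
    · by_contra hne
      have := hx _ hne
      rw [hj] at this
      exact absurd this (by simp)
  · rintro ⟨h0, h1, h2, j, hj⟩
    obtain ⟨F, hF, hFi⟩ := L0_two j
    refine ⟨h0, h1, F, hF, ?_⟩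
    intro i hne
    rcases hFi i with h | h | h
    · exact h
    · exact absurd (h2 i h) hne
    · rw [h] at hne; exact absurd hj hne

lemma check_moves : checkAll 24 L0 moves = true := by decide +kernel

lemma run_sub : ∀ F ∈ run 24 L0 moves, F ∈ facets := by decide +kernel

lemma sub_run : ∀ F ∈ facets, F ∈ run 24 L0 moves := by decide +kernel

lemma R_run : R 24 (run 24 L0 moves) = R 24 facets := by
  ext x
  constructor
  · rintro ⟨h0, h1, F, hF, hx⟩
    exact ⟨h0, h1, F, run_sub F hF, hx⟩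
  · rintro ⟨h0, h1, F, hF, hx⟩
    exact ⟨h0, h1, F, sub_run F hF, hx⟩

/-- The example: all subsets of the facets. -/
def Δ0 : Finset (Finset (Fin 24)) :=
  facets.toFinset.biUnion (fun F => (vs 24 F).powerset)

lemma mem_Δ0 (s : Finset (Fin 24)) : s ∈ Δ0 ↔ ∃ F ∈ facets, ∀ i ∈ s, F.testBit i = true := by
  simp only [Δ0, Finset.mem_biUnion, List.mem_toFinset, Finset.mem_powerset, Finset.subset_iff,
    mem_vs]

lemma realization_Δ0 : realization Δ0 = R 24 facets := by
  ext x
  constructor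
  · rintro ⟨h0, h1, s, hs, hsx⟩
    rw [mem_Δ0] at hs
    obtain ⟨F, hF, hFs⟩ := hs
    exact ⟨h0, h1, F, hF, fun i hi => hFs i ((hsx i).mpr hi)⟩
  · rintro ⟨h0, h1, F, hF, hx⟩
    classical
    refine ⟨h0, h1, Finset.univ.filter (fun i => x i ≠ 0), ?_, ?_⟩
    · rw [mem_Δ0]
      refine ⟨F, hF, ?_⟩
      intro i hi
      exact hx i (by simpa using hi)
    · intro i; simp

/-- The coloring. -/
def c0 : Fin 24 → Fin 4 :=
  ![0, 1, 0, 1, 0, 1, 0, 1, 2, 2, 2, 2, 3, 3, 3, 3, 3, 3, 3, 3, 3, 3, 3, 3]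

lemma isComplex_Δ0 : IsComplex Δ0 := by
  constructor
  · intro s hs t ht
    rw [mem_Δ0] at hs ⊢
    obtain ⟨F, hF, h⟩ := hs
    exact ⟨F, hF, fun i hi => h i (ht hi)⟩
  · intro v
    rw [mem_Δ0]
    have h : ∀ v : Fin 24, ∃ F ∈ facets, F.testBit v = true := by decide +kernel
    obtain ⟨F, hF, hv⟩ := h v
    exact ⟨F, hF, fun i hi => by rw [Finset.mem_singleton] at hi; rw [hi]; exact hv⟩

lemma isSphere_Δ0 : IsSphere 4 Δ0 := by
  refine ⟨isComplex_Δ0, ?_⟩
  obtain ⟨f⟩ := bd_homeo (d := 4) e5 e5_inj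
  obtain ⟨g⟩ := run_homeo 24 moves L0 check_moves
  rw [R_L0, R_run] at g
  rw [realization_Δ0]
  exact ⟨g.symm.trans f⟩

lemma proper_c0 : IsProperColoring Δ0 c0 := by
  intro a b hab h
  rw [mem_Δ0] at h
  obtain ⟨F, hF, hFi⟩ := h
  have h1 := hFi a (by simp)
  have h2 := hFi b (by simp)
  have key : ∀ a b : Fin 24, a ≠ b → c0 a = c0 b → ∀ F ∈ facets,
      F.testBit a = true → F.testBit b = true → False := by decide +kernel
  intro hc
  exact key a b hab hc F hF h1 h2


/-! ### Combinatorial tables -/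

/-- The color 3 vertex with index `w`. -/
def W (w : Fin 12) : Fin 24 := ⟨12 + w.1, by omega⟩

/-- First vertices of the antipodal pairs in the link of `W w`. -/
def f0 : Fin 12 → Fin 3 → Fin 24 :=
    ![![0, 1, 8], ![0, 3, 8], ![4, 5, 8], ![2, 1, 10], ![4, 1, 10], ![6, 5, 10], ![2, 3, 10],
    ![2, 5, 10], ![6, 7, 10], ![4, 3, 8], ![6, 3, 8], ![0, 7, 8]]

/-- Second vertices of the antipodal pairs in the link of `W w`. -/
def f1 : Fin 12 → Fin 3 → Fin 24 :=
    ![![2, 3, 9], ![4, 7, 9], ![6, 7, 9], ![4, 3, 9], ![0, 5, 9], ![0, 7, 9], ![4, 5, 11], ![6,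
    1, 11], ![0, 1, 11], ![6, 5, 11], ![2, 7, 11], ![2, 1, 11]]

/-- Signs. -/
def sg (w : Fin 12) (a : Fin 24) : ℤ :=
  if a = f0 w 0 ∨ a = f0 w 1 ∨ a = f0 w 2 then 1 else
    if a = f1 w 0 ∨ a = f1 w 1 ∨ a = f1 w 2 then -1 else 0

/-- Embedding of the colors 0, 1, 2 into all colors. -/
def co3 (i : Fin 3) : Fin 4 := i.castSucc

lemma W_color : ∀ w, c0 (W w) = 3 := by decide
lemma color_W : ∀ a : Fin 24, c0 a = 3 → ∃ w, W w = a := by decide
lemma W_inj : Function.Injective W := by decide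
lemma f0_color : ∀ w i, c0 (f0 w i) = co3 i := by decide
lemma f1_color : ∀ w i, c0 (f1 w i) = co3 i := by decide
lemma f0_ne_f1 : ∀ w i, f0 w i ≠ f1 w i := by decide
lemma f0_ne_W : ∀ w w' i, f0 w i ≠ W w' := by decide
lemma f1_ne_W : ∀ w w' i, f1 w i ≠ W w' := by decide
lemma sg_f0 : ∀ w i, sg w (f0 w i) = 1 := by decide
lemma sg_f1 : ∀ w i, sg w (f1 w i) = -1 := by decide
lemma sg_W : ∀ w w', sg w (W w') = 0 := by decide
lemma sg_cases : ∀ w a, sg w a = 0 ∨ (∃ i, a = f0 w i) ∨ (∃ i, a = f1 w i) := by decide +kernel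
lemma nonadj_W : ∀ w a, a ≠ W w → sg w a = 0 → ∀ F ∈ facets,
    F.testBit a = true → F.testBit (W w) = true → False := by decide +kernel
lemma nonadj_f : ∀ w i, ∀ F ∈ facets,
    F.testBit (f0 w i) = true → F.testBit (f1 w i) = true → False := by decide +kernel
lemma oct_face : ∀ w : Fin 12, ∀ a b c : Bool, ∃ F ∈ facets,
    F.testBit ((if a then f0 w 0 else f1 w 0) : Fin 24) = true ∧
    F.testBit ((if b then f0 w 1 else f1 w 1) : Fin 24) = true ∧
    F.testBit ((if c then f0 w 2 else f1 w 2) : Fin 24) = true := by decide +kernel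
lemma color_sum : ∀ w j, ∑ a with c0 a = j, sg w a = 0 := by decide +kernel

/-- Spanning tree on the color 3 vertices. -/
def par : Fin 12 → Fin 12 := ![0, 0, 1, 0, 0, 1, 3, 3, 4, 1, 0, 0]

/-- Triangle between a color 3 vertex and its parent. -/
def tr : Fin 12 → Fin 3 → Fin 24 :=
    ![![0, 0, 0], ![0, 3, 8], ![4, 7, 8], ![2, 1, 9], ![0, 1, 9], ![0, 7, 9], ![2, 3, 10], ![2,
    1, 10], ![0, 1, 10], ![4, 3, 8], ![2, 3, 8], ![0, 1, 8]]

lemma par_lt : ∀ w : Fin 12, w ≠ 0 → par w < w := by decide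
lemma tr_color : ∀ w, w ≠ 0 → ∀ i, c0 (tr w i) = co3 i := by decide
lemma tr_spec : ∀ w, w ≠ 0 → (sg w (tr w 0) * sg w (tr w 1) * sg w (tr w 2) = 1 ∧
    sg (par w) (tr w 0) * sg (par w) (tr w 1) * sg (par w) (tr w 2) = -1 ∧
    ∀ w', w' ≠ w → w' ≠ par w → sg w' (tr w 0) * sg w' (tr w 1) * sg w' (tr w 2) = 0) ∨
    (sg w (tr w 0) * sg w (tr w 1) * sg w (tr w 2) = -1 ∧
    sg (par w) (tr w 0) * sg (par w) (tr w 1) * sg (par w) (tr w 2) = 1 ∧
    ∀ w', w' ≠ w → w' ≠ par w → sg w' (tr w 0) * sg w' (tr w 1) * sg w' (tr w 2) = 0) := by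
  decide +kernel

/-- Vertices of each color 0, 1, 2. -/
def cv : Fin 3 → Fin 4 → Fin 24 := ![![0, 2, 4, 6], ![1, 3, 5, 7], ![8, 9, 10, 11]]

lemma cv_color : ∀ i j, c0 (cv i j) = co3 i := by decide

/-- Reduction matrices. -/
def M01 : Fin 12 → Fin 3 → ℤ :=
    ![![1, -1, 1], ![1, -1, 1], ![1, -1, 1], ![1, 0, 0], ![1, 0, 0], ![1, 0, 0], ![0, 1, 0],
    ![0, 1, 0], ![0, 1, 0], ![0, 0, 1], ![0, 0, 1], ![0, 0, 1]]
def M02 : Fin 12 → Fin 3 → ℤ :=
    ![![0, -1, -1], ![0, 1, 0], ![-1, 1, 0], ![0, -1, -1], ![1, -1, -1], ![-1, 1, 0], ![1, 0,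
    0], ![-1, 1, 1], ![0, 0, 1], ![1, 0, 0], ![0, 1, 0], ![0, 0, 1]]
def M12 : Fin 12 → Fin 3 → ℤ :=
    ![![0, 0, 1], ![-1, -1, 1], ![1, 0, 0], ![-1, -1, 0], ![1, 1, -1], ![0, 1, -1], ![-1, -1,
    0], ![0, -1, 0], ![0, 1, -1], ![1, 0, 0], ![0, 1, 0], ![0, 0, 1]]
def S01 : Fin 3 → Fin 12 := ![5, 8, 11]
def S02 : Fin 3 → Fin 12 := ![9, 10, 11]
def S12 : Fin 3 → Fin 12 := ![9, 10, 11]
def C01 : Fin 12 → Fin 4 → Fin 4 → ℤ :=
    ![![![1, 0, 1, 0], ![0, 0, 0, 0], ![0, 0, 0, 0], ![0, 0, 0, 0]], ![![1, 1, 1, 0], ![0, 0,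
    0, 0], ![0, 0, 0, 0], ![0, 0, 0, 0]], ![![1, 1, 1, 0], ![0, 0, 0, 0], ![1, 1, 1, 0], ![0,
    0, 0, 0]], ![![0, 0, 1, 0], ![0, 0, 0, 0], ![-1, 0, 0, 0], ![0, 0, 0, 0]], ![![0, 0, 1, 0],
    ![0, 0, 0, 0], ![0, 0, 0, 0], ![0, 0, 0, 0]], ![![0, 0, 0, 0], ![0, 0, 0, 0], ![0, 0, 0,
    0], ![0, 0, 0, 0]], ![![-1, 0, 0, 0], ![-1, 0, -1, 0], ![-1, 0, 0, 0], ![0, 0, 0, 0]],
    ![![-1, 0, 0, 0], ![-1, 0, 0, 0], ![-1, 0, 0, 0], ![0, 0, 0, 0]], ![![0, 0, 0, 0], ![0, 0,
    0, 0], ![0, 0, 0, 0], ![0, 0, 0, 0]], ![![0, 1, 0, 0], ![-1, 0, -1, 0], ![0, 1, 0, 0], ![0,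
    0, 0, 0]], ![![0, 0, 0, 0], ![-1, -1, -1, 0], ![0, 0, 0, 0], ![0, 0, 0, 0]], ![![0, 0, 0,
    0], ![0, 0, 0, 0], ![0, 0, 0, 0], ![0, 0, 0, 0]]]
def C02 : Fin 12 → Fin 4 → Fin 4 → ℤ :=
    ![![![0, 0, 0, 0], ![-1, 0, 0, 0], ![0, 0, 0, 0], ![0, 0, 0, 0]], ![![1, 0, 0, 0], ![1, 0,
    0, 0], ![0, 0, 0, 0], ![0, 0, 0, 0]], ![![1, 0, 0, 0], ![1, 0, 0, 0], ![1, 0, 0, 0], ![0,
    0, 0, 0]], ![![0, 0, 0, 0], ![-1, -1, 0, 0], ![0, 0, 0, 0], ![0, 0, 0, 0]], ![![0, 0, 0,
    0], ![-1, -1, 0, 0], ![-1, -1, 0, 0], ![0, 0, 0, 0]], ![![1, 1, 0, 0], ![1, 1, 0, 0], ![1,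
    1, 0, 0], ![0, 0, 0, 0]], ![![0, 0, 0, 0], ![0, 0, 0, 0], ![-1, -1, -1, 0], ![0, 0, 0, 0]],
    ![![0, 0, 0, 0], ![1, 1, 1, 0], ![1, 1, 1, 0], ![0, 0, 0, 0]], ![![-1, -1, -1, 0], ![0, 0,
    0, 0], ![0, 0, 0, 0], ![0, 0, 0, 0]], ![![0, 0, 0, 0], ![0, 0, 0, 0], ![0, 0, 0, 0], ![0,
    0, 0, 0]], ![![0, 0, 0, 0], ![0, 0, 0, 0], ![0, 0, 0, 0], ![0, 0, 0, 0]], ![![0, 0, 0, 0],
    ![0, 0, 0, 0], ![0, 0, 0, 0], ![0, 0, 0, 0]]]
def C12 : Fin 12 → Fin 4 → Fin 4 → ℤ :=
    ![![![1, 0, 0, 0], ![0, 0, 0, 0], ![0, 0, 0, 0], ![0, 0, 0, 0]], ![![1, 0, 0, 0], ![1, 0,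
    0, 0], ![0, 0, 0, 0], ![0, 0, 0, 0]], ![![0, 0, 0, 0], ![0, 0, 0, 0], ![1, 0, 0, 0], ![0,
    0, 0, 0]], ![![0, 0, 0, 0], ![1, 1, 0, 0], ![0, 0, 0, 0], ![0, 0, 0, 0]], ![![-1, -1, 0,
    0], ![-1, -1, 0, 0], ![0, 0, 0, 0], ![0, 0, 0, 0]], ![![-1, -1, 0, 0], ![-1, -1, 0, 0],
    ![-1, -1, 0, 0], ![0, 0, 0, 0]], ![![0, 0, 0, 0], ![1, 1, 1, 0], ![0, 0, 0, 0], ![0, 0, 0,
    0]], ![![0, 0, 0, 0], ![1, 1, 1, 0], ![1, 1, 1, 0], ![0, 0, 0, 0]], ![![-1, -1, -1, 0],
    ![-1, -1, -1, 0], ![-1, -1, -1, 0], ![0, 0, 0, 0]], ![![0, 0, 0, 0], ![0, 0, 0, 0], ![0, 0,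
    0, 0], ![0, 0, 0, 0]], ![![0, 0, 0, 0], ![0, 0, 0, 0], ![0, 0, 0, 0], ![0, 0, 0, 0]],
    ![![0, 0, 0, 0], ![0, 0, 0, 0], ![0, 0, 0, 0], ![0, 0, 0, 0]]]

/-- The identity behind the reduction. -/
def RedOK (i k : Fin 3) (M : Fin 12 → Fin 3 → ℤ) (S : Fin 3 → Fin 12)
    (C : Fin 12 → Fin 4 → Fin 4 → ℤ) : Prop :=
  ∀ w w' : Fin 12, (if w = w' then 1 else 0) - ∑ s, M w s * (if S s = w' then 1 else 0) =
    ∑ p, ∑ q, C w p q * (sg w' (cv i p) * sg w' (cv k q))

lemma red01 : RedOK 0 1 M01 S01 C01 := by unfold RedOK; decide +kernel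
lemma red02 : RedOK 0 2 M02 S02 C02 := by unfold RedOK; decide +kernel
lemma red12 : RedOK 1 2 M12 S12 C12 := by unfold RedOK; decide +kernel

/-! ### Algebra -/

section Alg
variable (K : Type u) [Field K]

/-- Image of a variable in the quotient. -/
noncomputable def x (v : Fin 24) : A K Δ0 c0 := Ideal.Quotient.mk (J K Δ0 c0) (MvPolynomial.X v)

lemma x_theta (j : Fin 4) : ∑ v with c0 v = j, x K v = 0 := by
  have h : Ideal.Quotient.mk (J K Δ0 c0) (theta K c0 j) = 0 := by
    rw [Ideal.Quotient.eq_zero_iff_mem]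
    exact Ideal.mem_sup_right (Ideal.subset_span ⟨j, rfl⟩)
  rw [theta, map_sum] at h
  exact h

lemma x_nonface (s : Finset (Fin 24)) (hs : s ∉ Δ0) : ∏ i ∈ s, x K i = 0 := by
  have h : Ideal.Quotient.mk (J K Δ0 c0) (∏ i ∈ s, MvPolynomial.X i) = 0 := by
    rw [Ideal.Quotient.eq_zero_iff_mem]
    exact Ideal.mem_sup_left (Ideal.subset_span ⟨s, hs, rfl⟩)
  rw [map_prod] at h
  exact h

lemma x_pair (a b : Fin 24) (hab : a ≠ b)
    (h : ∀ F ∈ facets, F.testBit a = true → F.testBit b = true → False) :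
    x K a * x K b = 0 := by
  have h1 := x_nonface K {a, b} (by
    rw [mem_Δ0]
    rintro ⟨F, hF, hFi⟩
    exact h F hF (hFi a (by simp)) (hFi b (by simp)))
  rwa [Finset.prod_pair hab] at h1

lemma x_W (w : Fin 12) (a : Fin 24) (ha : a ≠ W w) (hs : sg w a = 0) :
    x K a * x K (W w) = 0 :=
  x_pair K a (W w) ha (nonadj_W w a ha hs)

lemma x_WW (w : Fin 12) : x K (W w) * x K (W w) = 0 := by
  have h := congrArg (· * x K (W w)) (x_theta K 3)
  simp only [zero_mul, Finset.sum_mul] at h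
  rw [Finset.sum_eq_single (W w)] at h
  · exact h
  · intro b hb hne
    rw [Finset.mem_filter] at hb
    obtain ⟨w', rfl⟩ := color_W b hb.2
    exact x_W K w _ hne (sg_W w w')
  · intro hn
    exact (hn (Finset.mem_filter.mpr ⟨Finset.mem_univ _, W_color w⟩)).elim

lemma x_anti (w : Fin 12) (i : Fin 3) :
    x K (f1 w i) * x K (W w) = -(x K (f0 w i) * x K (W w)) := by
  have h := congrArg (· * x K (W w)) (x_theta K (co3 i))
  simp only [zero_mul, Finset.sum_mul] at h
  rw [Finset.sum_eq_add (f0 w i) (f1 w i) (f0_ne_f1 w i)] at h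
  · linear_combination h
  · rintro b hb ⟨h0, h1⟩
    rw [Finset.mem_filter] at hb
    have hbW : b ≠ W w := by
      intro hbw
      rw [hbw, W_color] at hb
      revert hb
      fin_cases i <;> simp [co3]
    rcases sg_cases w b with hz | ⟨i', hi'⟩ | ⟨i', hi'⟩
    · exact x_W K w b hbW hz
    · exfalso
      apply h0
      rw [hi'] at hb ⊢
      rw [f0_color] at hb
      have : i' = i := Fin.castSucc_injective _ hb.2
      rw [this]
    · exfalso
      apply h1
      rw [hi'] at hb ⊢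
      rw [f1_color] at hb
      have : i' = i := Fin.castSucc_injective _ hb.2
      rw [this]
  · intro hn
    exact (hn (Finset.mem_filter.mpr ⟨Finset.mem_univ _, f0_color w i⟩)).elim
  · intro hn
    exact (hn (Finset.mem_filter.mpr ⟨Finset.mem_univ _, f1_color w i⟩)).elim

/-- For a vertex of color `i < 3`, multiplication with `x (W w)` only sees the sign. -/
lemma x_mul_W (w : Fin 12) (i : Fin 3) (a : Fin 24) (ha : c0 a = co3 i) :
    x K a * x K (W w) = (sg w a : A K Δ0 c0) * (x K (f0 w i) * x K (W w)) := by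
  have haW : a ≠ W w := by
    intro hbw
    rw [hbw, W_color] at ha
    revert ha
    fin_cases i <;> simp [co3]
  rcases sg_cases w a with hz | ⟨i', hi'⟩ | ⟨i', hi'⟩
  · rw [x_W K w a haW hz, hz]; simp
  · subst hi'
    rw [f0_color] at ha
    have : i' = i := Fin.castSucc_injective _ ha
    subst this
    rw [sg_f0]; simp
  · subst hi'
    rw [f1_color] at ha
    have : i' = i := Fin.castSucc_injective _ ha
    subst this
    rw [sg_f1, x_anti]
    push_cast
    ring

lemma x_sq (w : Fin 12) (i : Fin 3) : x K (f0 w i) * (x K (f0 w i) * x K (W w)) = 0 := by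
  have h := x_anti K w i
  have h2 := x_pair K (f0 w i) (f1 w i) (f0_ne_f1 w i) (nonadj_f w i)
  linear_combination x K (f0 w i) * h - x K (W w) * h2

/-- The cubic classes. -/
noncomputable def t (w : Fin 12) (i k : Fin 3) : A K Δ0 c0 :=
  x K (f0 w i) * (x K (f0 w k) * x K (W w))

lemma t_rel (i k : Fin 3) (a b : Fin 24) (ha : c0 a = co3 i) (hb : c0 b = co3 k) :
    ∑ w, ((sg w a * sg w b : ℤ) : A K Δ0 c0) * t K w i k = 0 := by
  have h3 : ∑ w, x K (W w) = 0 := by
    rw [← x_theta K 3]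
    rw [← Finset.sum_image (f := fun v => x K v) (s := Finset.univ) (g := W)
      (fun a _ b _ h => W_inj h)]
    apply Finset.sum_congr _ (fun _ _ => rfl)
    ext v
    simp only [Finset.mem_image, Finset.mem_univ, true_and, Finset.mem_filter]
    constructor
    · rintro ⟨w, rfl⟩; exact W_color w
    · exact color_W v
  have h4 : ∑ w, x K a * (x K b * x K (W w)) = 0 := by
    rw [← Finset.mul_sum, ← Finset.mul_sum, h3, mul_zero, mul_zero]
  rw [← h4]
  apply Finset.sum_congr rfl
  intro w _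
  rw [x_mul_W K w k b hb]
  have h5 := x_mul_W K w i a ha
  simp only [t]
  push_cast
  linear_combination (-(sg w b : A K Δ0 c0) * x K (f0 w k)) * h5

lemma t_red (i k : Fin 3) (M : Fin 12 → Fin 3 → ℤ) (S : Fin 3 → Fin 12)
    (C : Fin 12 → Fin 4 → Fin 4 → ℤ) (h : RedOK i k M S C) (w : Fin 12) :
    t K w i k = ∑ s, (M w s : A K Δ0 c0) * t K (S s) i k := by
  have h1 : ∑ w', (((if w = w' then 1 else 0) - ∑ s, M w s * (if S s = w' then 1 else 0) : ℤ) :
      A K Δ0 c0) * t K w' i k = 0 := by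
    have : ∀ w', (((if w = w' then 1 else 0) - ∑ s, M w s * (if S s = w' then 1 else 0) : ℤ) :
      A K Δ0 c0) * t K w' i k = ∑ p, ∑ q, (C w p q : A K Δ0 c0) *
        (((sg w' (cv i p) * sg w' (cv k q) : ℤ) : A K Δ0 c0) * t K w' i k) := by
      intro w'
      rw [h w w']
      push_cast
      simp only [Finset.sum_mul]
      apply Finset.sum_congr rfl
      intro p _
      apply Finset.sum_congr rfl
      intro q _
      ring
    rw [Finset.sum_congr rfl (fun w' _ => this w'), Finset.sum_comm]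
    apply Finset.sum_eq_zero
    intro p _
    rw [Finset.sum_comm]
    apply Finset.sum_eq_zero
    intro q _
    rw [← Finset.mul_sum, t_rel K i k _ _ (cv_color i p) (cv_color k q), mul_zero]
  push_cast at h1
  simp only [sub_mul, Finset.sum_sub_distrib, ite_mul, one_mul, zero_mul, Finset.sum_ite_eq,
    Finset.mem_univ, if_true, Finset.sum_mul] at h1
  rw [Finset.sum_comm] at h1
  have h2 : ∀ s, ∑ w', (M w s : A K Δ0 c0) * (if S s = w' then 1 else 0) * t K w' i k =
      (M w s : A K Δ0 c0) * t K (S s) i k := by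
    intro s
    simp
  rw [Finset.sum_congr rfl (fun s _ => h2 s)] at h1
  linear_combination h1

/-- A homomorphism out of the quotient from the values on the variables. -/
lemma exists_lift {B : Type u} [CommRing B] [Algebra K B] (f : Fin 24 → B)
    (h1 : ∀ j : Fin 4, ∑ v with c0 v = j, f v = 0) (h2 : ∀ s : Finset (Fin 24), s ∉ Δ0 →
      ∏ i ∈ s, f i = 0) : ∃ φ : A K Δ0 c0 →ₐ[K] B, ∀ v, φ (x K v) = f v := by
  have hJ : ∀ a ∈ J K Δ0 c0, MvPolynomial.aeval f a = 0 := by
    intro a ha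
    have hle : J K Δ0 c0 ≤ RingHom.ker (MvPolynomial.aeval (R := K) f) := by
      apply sup_le
      · apply Ideal.span_le.mpr
        rintro m ⟨s, hs, rfl⟩
        simp only [SetLike.mem_coe, RingHom.mem_ker, map_prod, MvPolynomial.aeval_X]
        exact h2 s hs
      · apply Ideal.span_le.mpr
        rintro m ⟨j, rfl⟩
        simp only [SetLike.mem_coe, RingHom.mem_ker, theta, map_sum, MvPolynomial.aeval_X]
        exact h1 j
    exact (RingHom.mem_ker).mp (hle ha)
  refine ⟨Ideal.Quotient.liftₐ (J K Δ0 c0) (MvPolynomial.aeval f) hJ, ?_⟩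
  intro v
  show MvPolynomial.aeval f (MvPolynomial.X v) = f v
  simp

/-- Linear forms are combinations of the variables. -/
lemma deg_one (l : A K Δ0 c0) (hl : l ∈ deg K Δ0 c0 1) :
    ∃ a : Fin 24 → K, l = ∑ v, a v • x K v := by
  obtain ⟨p, hp, rfl⟩ := hl
  rw [SetLike.mem_coe, MvPolynomial.homogeneousSubmodule_one_eq_span_X] at hp
  obtain ⟨a, ha⟩ := (Submodule.mem_span_range_iff_exists_fun K).mp hp
  refine ⟨a, ?_⟩
  rw [← ha, map_sum]
  apply Finset.sum_congr rfl
  intro v _
  rw [map_smul]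
  rfl

lemma x_mem_deg (v : Fin 24) : x K v ∈ deg K Δ0 c0 1 :=
  ⟨MvPolynomial.X v, MvPolynomial.isHomogeneous_X _ _, rfl⟩

/-- The signed sum over the six neighbours. -/
lemma sum_six {B : Type u} [AddCommMonoid B] (w : Fin 12) (g : Fin 24 → B)
    (hg : ∀ a, sg w a = 0 → g a = 0) :
    ∑ a, g a = ∑ i, (g (f0 w i) + g (f1 w i)) := by
  have h1 : ∀ w : Fin 12, Function.Injective (f0 w) := by decide
  have h2 : ∀ w : Fin 12, Function.Injective (f1 w) := by decide
  have h3 : ∀ w : Fin 12, ∀ i j, f0 w i ≠ f1 w j := by decide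
  rw [Finset.sum_add_distrib,
    ← Finset.sum_image (f := g) (s := Finset.univ) (g := f0 w) (fun a _ b _ h => h1 w h),
    ← Finset.sum_image (f := g) (s := Finset.univ) (g := f1 w) (fun a _ b _ h => h2 w h),
    ← Finset.sum_union]
  · symm
    apply Finset.sum_subset (Finset.subset_univ _)
    intro a _ ha
    apply hg
    rcases sg_cases w a with hz | ⟨i, hi⟩ | ⟨i, hi⟩
    · exact hz
    · exfalso; apply ha; rw [hi]; simp
    · exfalso; apply ha; rw [hi]; simp
  · rw [Finset.disjoint_left]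
    intro a ha hb
    simp only [Finset.mem_image, Finset.mem_univ, true_and] at ha hb
    obtain ⟨i, rfl⟩ := ha
    obtain ⟨j, hj⟩ := hb
    exact h3 w i j hj.symm

/-- Multiplying `x (W w)` by a linear form. -/
lemma l_mul (a : Fin 24 → K) (w : Fin 12) :
    (∑ v, a v • x K v) * x K (W w) =
      ∑ i, (a (f0 w i) - a (f1 w i)) • (x K (f0 w i) * x K (W w)) := by
  rw [Finset.sum_mul, sum_six w (fun v => a v • x K v * x K (W w))]
  · apply Finset.sum_congr rfl
    intro i _
    rw [smul_mul_assoc, smul_mul_assoc, x_anti, sub_smul, smul_neg, sub_eq_add_neg]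
  · intro v hv
    rw [smul_mul_assoc]
    by_cases h : v = W w
    · rw [h, x_WW, smul_zero]
    · rw [x_W K w v h hv, smul_zero]

lemma t_comm (w : Fin 12) (i k : Fin 3) : t K w i k = t K w k i := by
  simp only [t]; ring

lemma l_sq_mul (a : Fin 24 → K) (w : Fin 12) :
    (∑ v, a v • x K v) ^ 2 * x K (W w) =
      (2 * (a (f0 w 0) - a (f1 w 0)) * (a (f0 w 1) - a (f1 w 1))) • t K w 0 1 +
      (2 * (a (f0 w 0) - a (f1 w 0)) * (a (f0 w 2) - a (f1 w 2))) • t K w 0 2 +
      (2 * (a (f0 w 1) - a (f1 w 1)) * (a (f0 w 2) - a (f1 w 2))) • t K w 1 2 := by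
  have h0 : ∀ i, t K w i i = 0 := fun i => x_sq K w i
  have h1 : (∑ v, a v • x K v) ^ 2 * x K (W w) =
      ∑ i, (a (f0 w i) - a (f1 w i)) • ∑ k, (a (f0 w k) - a (f1 w k)) • t K w i k := by
    rw [pow_two, mul_assoc, l_mul, Finset.mul_sum]
    apply Finset.sum_congr rfl
    intro i _
    rw [mul_smul_comm]
    congr 1
    have h2 : (∑ v, a v • x K v) * (x K (f0 w i) * x K (W w)) =
        x K (f0 w i) * ((∑ v, a v • x K v) * x K (W w)) := by ring
    rw [h2, l_mul, Finset.mul_sum]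
    apply Finset.sum_congr rfl
    intro k _
    rw [mul_smul_comm]
    rfl
  rw [h1]
  simp only [Fin.sum_univ_three, h0, t_comm K w 1 0, t_comm K w 2 0, t_comm K w 2 1]
  module


/-- A system of fewer than 12 linear equations in 12 unknowns has a nonzero solution. -/
lemma exists_kernel {ι : Type} [Fintype ι] (hι : Fintype.card ι < 12) (N : ι → Fin 12 → K) :
    ∃ y : Fin 12 → K, y ≠ 0 ∧ ∀ r, ∑ w, N r w * y w = 0 := by
  classical
  have h : LinearMap.ker (Matrix.mulVecLin (Matrix.of N)) ≠ ⊥ := by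
    apply LinearMap.ker_ne_bot_of_finrank_lt
    rw [Module.finrank_fintype_fun_eq_card, Module.finrank_fintype_fun_eq_card, Fintype.card_fin]
    exact hι
  obtain ⟨y, hy, hne⟩ := (Submodule.ne_bot_iff _).mp h
  refine ⟨y, hne, ?_⟩
  intro r
  rw [LinearMap.mem_ker, Matrix.mulVecLin_apply] at hy
  have := congrFun hy r
  exact this

lemma int_mul (m : ℤ) (z : A K Δ0 c0) : (m : A K Δ0 c0) * z = (m : K) • z := by
  have h := Algebra.smul_def (m : K) z
  rw [map_intCast] at h
  exact h.symm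

lemma sum_red (i k : Fin 3) (M : Fin 12 → Fin 3 → ℤ) (S : Fin 3 → Fin 12)
    (C : Fin 12 → Fin 4 → Fin 4 → ℤ) (h : RedOK i k M S C) (q : Fin 12 → K)
    (hq : ∀ s, ∑ w, (M w s : K) * q w = 0) : ∑ w, q w • t K w i k = 0 := by
  have h1 : ∀ w, q w • t K w i k = ∑ s, ((M w s : K) * q w) • t K (S s) i k := by
    intro w
    conv_lhs => rw [t_red K i k M S C h w, Finset.smul_sum]
    apply Finset.sum_congr rfl
    intro s _
    rw [int_mul, smul_smul, mul_comm]
  rw [Finset.sum_congr rfl (fun w _ => h1 w), Finset.sum_comm]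
  apply Finset.sum_eq_zero
  intro s _
  rw [← Finset.sum_smul, hq s, zero_smul]

/-- Separating the color 3 vertices. -/
lemma W_sum_ne (y : Fin 12 → K) (hy : y ≠ 0) (h0 : y 0 = 0) :
    ∑ w, y w • x K (W w) ≠ 0 := by
  obtain ⟨w1, hw1⟩ := Function.ne_iff.mp hy
  have hw10 : w1 ≠ 0 := by
    intro h
    rw [h] at hw1
    exact hw1 h0
  obtain ⟨φ, hφ⟩ := exists_lift K (B := DualNumber K)
    (fun v => (if v = W w1 then DualNumber.eps else 0) - (if v = W 0 then DualNumber.eps else 0))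
    (by
      intro j
      rw [Finset.sum_sub_distrib, Finset.sum_ite_eq', Finset.sum_ite_eq']
      simp only [Finset.mem_filter, Finset.mem_univ, true_and, W_color]
      exact sub_self _)
    (by
      intro s hs
      have hc : 1 < s.card := by
        by_contra hc
        have hc' : s.card ≤ 1 := by omega
        rw [Finset.card_le_one_iff_subset_singleton] at hc'
        obtain ⟨v, hv⟩ := hc'
        exact hs (isComplex_Δ0.1 {v} (isComplex_Δ0.2 v) s hv)
      obtain ⟨a, ha, b, hb, hab⟩ := Finset.one_lt_card.mp hc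
      have hdvd := Finset.prod_dvd_prod_of_subset {a, b} s (fun v : Fin 24 =>
        ((if v = W w1 then DualNumber.eps else 0) - (if v = W 0 then DualNumber.eps else 0) :
          DualNumber K)) (by
          intro c hc
          simp only [Finset.mem_insert, Finset.mem_singleton] at hc
          rcases hc with rfl | rfl
          · exact ha
          · exact hb)
      rw [Finset.prod_pair hab] at hdvd
      have hz : ((if a = W w1 then DualNumber.eps else 0) -
          (if a = W 0 then DualNumber.eps else 0) : DualNumber K) *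
          ((if b = W w1 then DualNumber.eps else 0) -
          (if b = W 0 then DualNumber.eps else 0)) = 0 := by
        split_ifs <;> simp [DualNumber.eps_mul_eps]
      rw [hz] at hdvd
      exact zero_dvd_iff.mp hdvd)
  intro hzero
  have h1 := congrArg φ hzero
  rw [map_sum, map_zero] at h1
  have h2 : ∀ w, φ (y w • x K (W w)) = (if w = w1 then y w • (DualNumber.eps : DualNumber K)
      else 0) - (if w = 0 then y w • (DualNumber.eps : DualNumber K) else 0) := by
    intro w
    rw [map_smul, hφ, smul_sub]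
    have e1 : (W w = W w1) = (w = w1) := propext W_inj.eq_iff
    have e2 : (W w = W 0) = (w = 0) := propext W_inj.eq_iff
    simp only [e1, e2, smul_ite, smul_zero]
  rw [Finset.sum_congr rfl (fun w _ => h2 w), Finset.sum_sub_distrib, Finset.sum_ite_eq',
    Finset.sum_ite_eq'] at h1
  simp only [Finset.mem_univ, if_true, h0, zero_smul, sub_zero] at h1
  have h3 := congrArg TrivSqZeroExt.snd h1
  rw [TrivSqZeroExt.snd_smul, DualNumber.snd_eps, TrivSqZeroExt.snd_zero, smul_eq_mul,
    mul_one] at h3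
  exact hw1 h3

/-- The square of a linear form always kills a nonzero linear form. -/
lemma not_inj (a : Fin 24 → K) : ∃ y ∈ deg K Δ0 c0 1, y ≠ 0 ∧ (∑ v, a v • x K v) ^ 2 * y = 0 := by
  obtain ⟨y, hy, hN⟩ := exists_kernel K (ι := Fin 3 ⊕ Fin 3 ⊕ Fin 3 ⊕ Unit) (by decide)
    (fun r w => match r with
      | Sum.inl s => (M01 w s : K) *
          (2 * (a (f0 w 0) - a (f1 w 0)) * (a (f0 w 1) - a (f1 w 1)))
      | Sum.inr (Sum.inl s) => (M02 w s : K) *
          (2 * (a (f0 w 0) - a (f1 w 0)) * (a (f0 w 2) - a (f1 w 2)))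
      | Sum.inr (Sum.inr (Sum.inl s)) => (M12 w s : K) *
          (2 * (a (f0 w 1) - a (f1 w 1)) * (a (f0 w 2) - a (f1 w 2)))
      | Sum.inr (Sum.inr (Sum.inr _)) => if w = 0 then 1 else 0)
  have h0 : y 0 = 0 := by
    have := hN (Sum.inr (Sum.inr (Sum.inr ())))
    simpa using this
  refine ⟨∑ w, y w • x K (W w), ?_, W_sum_ne K y hy h0, ?_⟩
  · apply Submodule.sum_mem
    intro w _
    exact Submodule.smul_mem _ _ (x_mem_deg K (W w))
  · rw [Finset.mul_sum]
    have h1 : ∀ w, (∑ v, a v • x K v) ^ 2 * (y w • x K (W w)) =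
        ((2 * (a (f0 w 0) - a (f1 w 0)) * (a (f0 w 1) - a (f1 w 1))) * y w) • t K w 0 1 +
        ((2 * (a (f0 w 0) - a (f1 w 0)) * (a (f0 w 2) - a (f1 w 2))) * y w) • t K w 0 2 +
        ((2 * (a (f0 w 1) - a (f1 w 1)) * (a (f0 w 2) - a (f1 w 2))) * y w) • t K w 1 2 := by
      intro w
      rw [mul_smul_comm, l_sq_mul]
      module
    rw [Finset.sum_congr rfl (fun w _ => h1 w), Finset.sum_add_distrib, Finset.sum_add_distrib]
    rw [sum_red K 0 1 M01 S01 C01 red01, sum_red K 0 2 M02 S02 C02 red02,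
      sum_red K 1 2 M12 S12 C12 red12, add_zero, add_zero]
    · intro s
      rw [← hN (Sum.inr (Sum.inr (Sum.inl s)))]
      apply Finset.sum_congr rfl
      intro w _
      simp only
      ring
    · intro s
      rw [← hN (Sum.inr (Sum.inl s))]
      apply Finset.sum_congr rfl
      intro w _
      simp only
      ring
    · intro s
      rw [← hN (Sum.inl s)]
      apply Finset.sum_congr rfl
      intro w _
      simp only
      ring

/-! ### The other direction -/

def D1 : Type u := DualNumber K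
noncomputable instance : CommRing (D1 K) := inferInstanceAs (CommRing (DualNumber K))
noncomputable instance : Algebra K (D1 K) := inferInstanceAs (Algebra K (DualNumber K))
def D2 : Type u := DualNumber (D1 K)
noncomputable instance : CommRing (D2 K) := inferInstanceAs (CommRing (DualNumber (D1 K)))
noncomputable instance : Algebra K (D2 K) := inferInstanceAs (Algebra K (DualNumber (D1 K)))
/-- Polynomials in three variables modulo the squares of the variables. -/
def T3 : Type u := DualNumber (D2 K)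
noncomputable instance : CommRing (T3 K) := inferInstanceAs (CommRing (DualNumber (D2 K)))
noncomputable instance : Algebra K (T3 K) := inferInstanceAs (Algebra K (DualNumber (D2 K)))

noncomputable def ε1 : D1 K := (DualNumber.eps : DualNumber K)
noncomputable def ε2 : D2 K := (DualNumber.eps : DualNumber (D1 K))
noncomputable def ε3 : T3 K := (DualNumber.eps : DualNumber (D2 K))
noncomputable def i1 : D1 K →+* D2 K := TrivSqZeroExt.inlHom (D1 K) (D1 K)
noncomputable def i2 : D2 K →+* T3 K := TrivSqZeroExt.inlHom (D2 K) (D2 K)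
noncomputable def e0 : T3 K := i2 K (i1 K (ε1 K))
noncomputable def e1 : T3 K := i2 K (ε2 K)
noncomputable def e2 : T3 K := ε3 K

lemma e00 : e0 K * e0 K = 0 := by
  have h : ε1 K * ε1 K = 0 := DualNumber.eps_mul_eps
  rw [e0, ← map_mul, ← map_mul, h, map_zero, map_zero]
lemma e11 : e1 K * e1 K = 0 := by
  have h : ε2 K * ε2 K = 0 := DualNumber.eps_mul_eps
  rw [e1, ← map_mul, h, map_zero]
lemma e22 : e2 K * e2 K = 0 := DualNumber.eps_mul_eps

noncomputable def s1 : D1 K →ₗ[K] K where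
  toFun z := TrivSqZeroExt.snd (R := K) z
  map_add' _ _ := rfl
  map_smul' _ _ := rfl
noncomputable def s2 : D2 K →ₗ[K] D1 K where
  toFun z := TrivSqZeroExt.snd (R := D1 K) z
  map_add' _ _ := rfl
  map_smul' _ _ := rfl
noncomputable def s3 : T3 K →ₗ[K] D2 K where
  toFun z := TrivSqZeroExt.snd (R := D2 K) z
  map_add' _ _ := rfl
  map_smul' _ _ := rfl

/-- The coefficient of the product of the three variables. -/
noncomputable def top : T3 K →ₗ[K] K := s1 K ∘ₗ s2 K ∘ₗ s3 K

omit [Field K] in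
lemma gen_e {R : Type u} [CommRing R] (z : R) :
    TrivSqZeroExt.snd ((TrivSqZeroExt.inl z : DualNumber R) * DualNumber.eps) = z := by
  simp
lemma s3_e (z : D2 K) : s3 K (i2 K z * ε3 K) = z := gen_e z
lemma s2_e (z : D1 K) : s2 K (i1 K z * ε2 K) = z := gen_e z
lemma s1_e : s1 K (ε1 K) = 1 := by
  show TrivSqZeroExt.snd (DualNumber.eps : DualNumber K) = 1
  simp

lemma top_e : top K (e0 K * e1 K * e2 K) = 1 := by
  show s1 K (s2 K (s3 K (e0 K * e1 K * e2 K))) = 1
  rw [e0, e1, e2, ← map_mul, s3_e, s2_e, s1_e]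

/-- The three variables and zero. -/
noncomputable def ee : Fin 4 → T3 K := ![e0 K, e1 K, e2 K, 0]

lemma ee_sq : ∀ j, ee K j * ee K j = 0 := by
  intro j
  fin_cases j
  · exact e00 K
  · exact e11 K
  · exact e22 K
  · exact mul_zero _

/-- Restriction to the star of a color 3 vertex. -/
lemma exists_rho (w : Fin 12) : ∃ φ : A K Δ0 c0 →ₐ[K] T3 K,
    ∀ v, φ (x K v) = (sg w v : T3 K) * ee K (c0 v) := by
  apply exists_lift K (B := T3 K) (fun v => (sg w v : T3 K) * ee K (c0 v))
  · intro j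
    have h1 : ∑ v with c0 v = j, (sg w v : T3 K) * ee K (c0 v) =
        ((∑ v with c0 v = j, sg w v : ℤ) : T3 K) * ee K j := by
      push_cast
      rw [Finset.sum_mul]
      apply Finset.sum_congr rfl
      intro v hv
      rw [Finset.mem_filter] at hv
      rw [hv.2]
    rw [h1, color_sum]
    simp
  · intro s hs
    by_contra hne
    have hp2 : ∀ a ∈ s, ∀ b ∈ s, a ≠ b → c0 a ≠ c0 b := by
      intro a ha b hb hab hc
      apply hne
      have hdvd := Finset.prod_dvd_prod_of_subset {a, b} s (fun v : Fin 24 =>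
        ((sg w v : T3 K) * ee K (c0 v))) (by
          intro c hc
          simp only [Finset.mem_insert, Finset.mem_singleton] at hc
          rcases hc with rfl | rfl
          · exact ha
          · exact hb)
      rw [Finset.prod_pair hab] at hdvd
      have hz : ((sg w a : T3 K) * ee K (c0 a)) * ((sg w b : T3 K) * ee K (c0 b)) = 0 := by
        rw [hc]
        linear_combination ((sg w a : T3 K) * (sg w b : T3 K)) * ee_sq K (c0 b)
      rw [hz] at hdvd
      exact zero_dvd_iff.mp hdvd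
    have hp1 : ∀ a ∈ s, sg w a ≠ 0 := by
      intro a ha h0
      apply hne
      apply Finset.prod_eq_zero ha
      rw [h0]
      simp
    apply hs
    rw [mem_Δ0]
    classical
    obtain ⟨F, hF, g0, g1, g2⟩ := oct_face w (decide (f0 w 0 ∈ s)) (decide (f0 w 1 ∈ s))
      (decide (f0 w 2 ∈ s))
    have key : ∀ k : Fin 3, F.testBit ((if (decide (f0 w k ∈ s)) = true then f0 w k else f1 w k) :
        Fin 24) = true := by
      intro k
      fin_cases k
      · exact g0
      · exact g1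
      · exact g2
    refine ⟨F, hF, ?_⟩
    intro i hi
    rcases sg_cases w i with hz | ⟨k, rfl⟩ | ⟨k, rfl⟩
    · exact absurd hz (hp1 i hi)
    · have := key k
      rwa [if_pos (by simpa using hi)] at this
    · have h0 : f0 w k ∉ s := by
        intro h0
        exact hp2 _ h0 _ hi (f0_ne_f1 w k) (by rw [f0_color, f1_color])
      have := key k
      rwa [if_neg (by simpa using h0)] at this

lemma vertex_cases : ∀ v : Fin 24, (∃ i j, v = cv i j) ∨ ∃ w, v = W w := by decide

lemma theta_cv (i : Fin 3) : ∑ j : Fin 4, x K (cv i j) = 0 := by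
  have h := x_theta K (co3 i)
  have hs : ∀ i : Fin 3, (Finset.univ.filter (fun v : Fin 24 => c0 v = co3 i)) =
      Finset.univ.image (cv i) := by decide
  have hinj : ∀ i : Fin 3, Function.Injective (cv i) := by decide
  rw [hs i, Finset.sum_image (fun a _ b _ h => hinj i h)] at h
  exact h

/-- Multiplication by the square of a linear form is never onto the cubic component. -/
lemma not_surj (a : Fin 24 → K) : ∃ b ∈ deg K Δ0 c0 (1 + 2), ∀ y ∈ deg K Δ0 c0 1,
    (∑ v, a v • x K v) ^ 2 * y ≠ b := by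
  choose ρ hρ using exists_rho K
  obtain ⟨z, hz, hN⟩ := exists_kernel K (ι := (Fin 3 × Fin 3) ⊕ Unit) (by decide)
    (fun r w => match r with
      | Sum.inl p => top K (ρ w ((∑ v, a v • x K v) ^ 2 * x K (cv p.1 p.2.castSucc)))
      | Sum.inr _ => if w = 0 then 1 else 0)
  have h0 : z 0 = 0 := by
    have := hN (Sum.inr ())
    simpa using this
  let Φ : A K Δ0 c0 →ₗ[K] K := ∑ w, z w • ((top K) ∘ₗ (ρ w).toLinearMap)
  have hΦ : ∀ b, Φ b = ∑ w, top K (ρ w b) * z w := by
    intro b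
    simp only [Φ, LinearMap.coe_sum, Finset.sum_apply, LinearMap.smul_apply, LinearMap.comp_apply,
      AlgHom.toLinearMap_apply, smul_eq_mul]
    apply Finset.sum_congr rfl
    intro w _
    ring
  have hv1 : ∀ (i j : Fin 3), Φ ((∑ v, a v • x K v) ^ 2 * x K (cv i j.castSucc)) = 0 := by
    intro i j
    rw [hΦ]
    exact hN (Sum.inl (i, j))
  have hv2 : ∀ i : Fin 3, Φ ((∑ v, a v • x K v) ^ 2 * x K (cv i 3)) = 0 := by
    intro i
    have h := congrArg (fun q => Φ ((∑ v, a v • x K v) ^ 2 * q)) (theta_cv K i)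
    simp only [mul_zero, map_zero, Finset.mul_sum] at h
    rw [map_sum, Fin.sum_univ_castSucc, Finset.sum_eq_zero (fun j _ => hv1 i j), zero_add] at h
    exact h
  have hv3 : ∀ w', Φ ((∑ v, a v • x K v) ^ 2 * x K (W w')) = 0 := by
    intro w'
    rw [hΦ]
    apply Finset.sum_eq_zero
    intro w _
    rw [map_mul, hρ, sg_W]
    simp
  have hv : ∀ v, Φ ((∑ v, a v • x K v) ^ 2 * x K v) = 0 := by
    intro v
    rcases vertex_cases v with ⟨i, j, rfl⟩ | ⟨w, rfl⟩
    · refine Fin.lastCases ?_ (fun j => ?_) j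
      · exact hv2 i
      · exact hv1 i j
    · exact hv3 w
  have hmono : ∀ w, w ≠ 0 → Φ (x K (tr w 0) * x K (tr w 1) * x K (tr w 2)) =
      ∑ w', ((sg w' (tr w 0) * sg w' (tr w 1) * sg w' (tr w 2) : ℤ) : K) * z w' := by
    intro w hw
    rw [hΦ]
    apply Finset.sum_congr rfl
    intro w' _
    congr 1
    rw [map_mul (ρ w'), map_mul (ρ w'), hρ, hρ, hρ, tr_color w hw 0, tr_color w hw 1, tr_color w hw 2]
    have hm : (sg w' (tr w 0) : T3 K) * ee K (co3 0) * ((sg w' (tr w 1) : T3 K) * ee K (co3 1)) *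
        ((sg w' (tr w 2) : T3 K) * ee K (co3 2)) =
        ((sg w' (tr w 0) * sg w' (tr w 1) * sg w' (tr w 2) : ℤ) : K) •
          (e0 K * e1 K * e2 K) := by
      rw [Algebra.smul_def, map_intCast]
      show (sg w' (tr w 0) : T3 K) * e0 K * ((sg w' (tr w 1) : T3 K) * e1 K) *
        ((sg w' (tr w 2) : T3 K) * e2 K) = _
      push_cast
      ring
    rw [hm, map_smul, top_e, smul_eq_mul, mul_one]
  have hex : ∃ w, w ≠ 0 ∧ Φ (x K (tr w 0) * x K (tr w 1) * x K (tr w 2)) ≠ 0 := by
    by_contra hcon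
    push Not at hcon
    apply hz
    have hall : ∀ n : ℕ, ∀ w : Fin 12, w.1 = n → z w = 0 := by
      intro n
      induction n using Nat.strong_induction_on with
      | _ n ih =>
        intro w hw
        by_cases hw0 : w = 0
        · rw [hw0]; exact h0
        · have hp := par_lt w hw0
          have hzp : z (par w) = 0 := ih (par w).1 (by rw [← hw]; exact hp) (par w) rfl
          have h1 := hcon w hw0
          rw [hmono w hw0] at h1
          rw [Finset.sum_eq_single w] at h1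
          · rcases tr_spec w hw0 with ⟨g1, g2, g3⟩ | ⟨g1, g2, g3⟩
            · rw [g1] at h1; simpa using h1
            · rw [g1] at h1; simpa using h1
          · intro w' _ hne
            by_cases hwp : w' = par w
            · rw [hwp, hzp, mul_zero]
            · rcases tr_spec w hw0 with ⟨g1, g2, g3⟩ | ⟨g1, g2, g3⟩
              · rw [g3 w' hne hwp]; simp
              · rw [g3 w' hne hwp]; simp
          · intro hn; exact absurd (Finset.mem_univ _) hn
    funext w
    exact hall w.1 w rfl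
  obtain ⟨w, hw, hb⟩ := hex
  refine ⟨x K (tr w 0) * x K (tr w 1) * x K (tr w 2), ?_, ?_⟩
  · refine ⟨MvPolynomial.X (tr w 0) * MvPolynomial.X (tr w 1) * MvPolynomial.X (tr w 2), ?_, ?_⟩
    · exact ((MvPolynomial.isHomogeneous_X K (tr w 0)).mul
        (MvPolynomial.isHomogeneous_X K (tr w 1))).mul (MvPolynomial.isHomogeneous_X K (tr w 2))
    · simp only [AlgHom.toLinearMap_apply, map_mul]
      rfl
  · intro y hy heq
    obtain ⟨b, rfl⟩ := deg_one K y hy
    apply hb
    rw [← heq, Finset.mul_sum, map_sum]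
    apply Finset.sum_eq_zero
    intro v _
    rw [mul_smul_comm, map_smul, hv v, smul_zero]

lemma not_SLP : ¬ HasSLP K Δ0 c0 := by
  rintro ⟨l, hl, h⟩
  obtain ⟨a, rfl⟩ := deg_one K l hl
  rcases h 1 2 (by norm_num) with h1 | h1
  · obtain ⟨y, hy, hne, h2⟩ := not_inj K a
    exact hne (h1 y hy h2)
  · obtain ⟨b, hb, h2⟩ := not_surj K a
    obtain ⟨y, hy, h3⟩ := h1 b hb
    exact h2 y hy h3

end Alg

/-- There is a balanced simplicial 3-sphere whose Stanley-Reisner ring modulo the colored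
parameter system fails the strong Lefschetz property over every field. -/
theorem result : ∃ (n : ℕ) (Δ : Finset (Finset (Fin n))) (c : Fin n → Fin 4),
    IsSphere 4 Δ ∧ IsProperColoring Δ c ∧ ∀ (K : Type u) [Field K], ¬ HasSLP K Δ c :=
  ⟨24, Δ0, c0, isSphere_Δ0, proper_c0, fun K _ => not_SLP K⟩

end Pool.Agent.Results.MP_5d3ebc_al.SLPFails
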